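import Mathlib
import Pool.Agent.H85.SC.Targets

/-!
# Modules NNA, SLT, DIV, UNQ, PRT
-/

namespace Pool.Agent.H19.SC

open Pool.Agent.H85.SC

theorem PP_pos (m : ℕ) : 0 < PP m := by
  unfold PP
  have h0 := (pr_prime m 0).pos
  have h1 := (pr_prime m 1).pos
  have h2 := (pr_prime m 2).pos
  positivity

theorem QQ_pos (r : ℕ) : 0 < QQ r := by
  unfold QQ
  have : 0 < ∏ j ∈ Finset.range (r + 1), PP j := Finset.prod_pos fun j _ => PP_pos j
  positivity

theorem QQ_succ (r : ℕ) : QQ (r + 1) = 4 * PP (r + 1) * QQ r := by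
  unfold QQ
  rw [Finset.prod_range_succ _ (r + 1), show r + 1 + 2 = (r + 2) + 1 by ring, pow_succ]
  ring

theorem NN_step (r : ℕ) : 16 * NN r ≤ NN (r + 1) := by
  unfold NN
  rw [QQ_succ]
  have h1 : 1 ≤ PP (r + 1) := PP_pos _
  calc 16 * QQ r ^ 2 = (4 * 1 * QQ r) ^ 2 := by ring
    _ ≤ (4 * PP (r + 1) * QQ r) ^ 2 := by gcongr

/-- module NNA -/
theorem NNA_proof : T_NNA := by
  have hpos : ∀ r, 0 < NN r := fun r => pow_pos (QQ_pos r) 2
  have hmono : ∀ r r', r < r' → 16 * NN r ≤ NN r' := by
    intro r r' h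
    induction r', h using Nat.le_induction with
    | base => exact NN_step r
    | succ k hk ih =>
      have := NN_step k
      omega
  refine ⟨hpos, NN_step, hmono, ?_⟩
  intro r
  induction r with
  | zero =>
    have h1 : 4 ^ 2 ≤ QQ 0 := by
      unfold QQ
      have : 0 < ∏ j ∈ Finset.range (0 + 1), PP j := Finset.prod_pos fun j _ => PP_pos j
      calc 4 ^ 2 = 4 ^ (0 + 2) * 1 := by norm_num
        _ ≤ _ := Nat.mul_le_mul_left _ this
    unfold NN
    nlinarith
  | succ k ih =>
    have := NN_step k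
    omega

theorem lg_pow_le (n i : ℕ) (h : Valid n i) : n < i := by
  have h1 : 2 ^ lg i ≤ i := Nat.pow_log_le_self 2 (by have := h.1; omega)
  exact lt_of_lt_of_le h.2 h1

/-- module SLT -/
theorem SLT_proof : T_SLT := by
  have key : ∀ n i n' i', Valid n i → Valid n' i' → i < i' → slot n i < slot n' i' := by
    intro n i n' i' h h' hlt
    have h1 := lg_pow_le n i h
    unfold slot
    have h2 : (i + 1) ^ 2 ≤ i' ^ 2 := by gcongr; omega
    nlinarith
  refine ⟨?_, key, ?_⟩
  · intro n i n' i' h h' he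
    have hi : i = i' := by
      rcases lt_trichotomy i i' with hl | hl | hl
      · have := key n i n' i' h h' hl
        omega
      · exact hl
      · have := key n' i' n i h' h hl
        omega
    subst hi
    unfold slot at he
    exact ⟨by omega, rfl⟩
  · intro n i h
    have h1 := lg_pow_le n i h
    have h2 := h.1
    unfold slot
    exact ⟨by nlinarith, h1⟩

/-- module DIV -/
theorem DIV_proof : T_DIV := by
  intro n i h
  have h1 := lg_pow_le n i h
  have h0 := h.1
  have hi : 2 ^ lg i ≤ i := Nat.pow_log_le_self 2 (by omega)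
  have hs : Nat.size n ≤ lg i := Nat.size_le.2 h.2
  have hl : lg i < 2 ^ lg i := Nat.lt_two_pow_self
  have hii : i ≤ i ^ 2 := by nlinarith
  have hsl : Nat.size n + 1 ≤ slot n i + 2 := by
    unfold slot
    omega
  have hlv : lvl n i ∈ Finset.range (slot n i + 1) := by
    rw [Finset.mem_range]
    unfold lvl slot
    omega
  have hdvd : 4 ^ (Nat.size n + 1) * PP (lvl n i) ∣ QQ (slot n i) := by
    unfold QQ
    exact Nat.mul_dvd_mul (pow_dvd_pow 4 hsl) (Finset.dvd_prod_of_mem _ hlv)
  constructor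
  · unfold NN
    exact hdvd.trans (dvd_pow_self _ two_ne_zero)
  · unfold NN
    exact Nat.pow_le_pow_left (Nat.le_of_dvd (QQ_pos _) hdvd) 2

/-- module UNQ -/
theorem UNQ_proof : T_UNQ := by
  intro n i n' i' z h h'
  obtain ⟨hv, h1, h2, -⟩ := h
  obtain ⟨hv', h1', h2', -⟩ := h'
  obtain ⟨hp, -, hm, -⟩ := NNA_proof
  have he : slot n i = slot n' i' := by
    rcases lt_trichotomy (slot n i) (slot n' i') with hl | hl | hl
    · have h3 := hm _ _ hl
      have h4 := hp (slot n i)
      have h5 : (16 * NN (slot n i) : ℤ) ≤ NN (slot n' i') := by exact_mod_cast h3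
      have h6 : (0 : ℤ) < NN (slot n i) := by exact_mod_cast h4
      linarith
    · exact hl
    · have h3 := hm _ _ hl
      have h4 := hp (slot n' i')
      have h5 : (16 * NN (slot n' i') : ℤ) ≤ NN (slot n i) := by exact_mod_cast h3
      have h6 : (0 : ℤ) < NN (slot n' i') := by exact_mod_cast h4
      linarith
  exact SLT_proof.1 n i n' i' hv hv' he

/-- module PRT -/
theorem PRT_proof : T_PRT := by
  classical
  intro S h hz M
  obtain ⟨hp, -, hm, hr⟩ := NNA_proof
  have hdis : ∀ p ∈ stn S M, ∀ q ∈ stn S M, p ≠ q → Disjoint (RS p.1 p.2) (RS q.1 q.2) := by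
    intro p _ q _ hpq
    rw [Finset.disjoint_left]
    intro z hz1 hz2
    have h1 := (Finset.mem_filter.1 hz1).2
    have h2 := (Finset.mem_filter.1 hz2).2
    have h3 := UNQ_proof _ _ _ _ _ h1 h2
    exact hpq (Prod.ext h3.1 h3.2)
  rw [← Finset.sum_biUnion hdis]
  symm
  apply Finset.sum_subset
  · intro z hz
    rw [Finset.mem_biUnion] at hz
    obtain ⟨p, hp1, hp2⟩ := hz
    have h1 := (Finset.mem_filter.1 hp2).1
    rw [Finset.mem_Ico] at h1
    have h2 := (Finset.mem_filter.1 hp1).2.2.2
    have h3 := hm _ _ h2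
    have h4 := hp (slot p.1 p.2)
    have h5 : (16 * NN (slot p.1 p.2) : ℤ) ≤ NN M := by exact_mod_cast h3
    have h6 : (0 : ℤ) < NN (slot p.1 p.2) := by exact_mod_cast h4
    rw [Finset.mem_Ico]
    constructor <;> linarith [h1.1, h1.2]
  · intro z hz1 hz2
    apply hz
    intro n i hn hreg
    apply hz2
    rw [Finset.mem_biUnion]
    have hv := hreg.1
    have hl := hreg.2.1
    have hu := hreg.2.2.1
    rw [Finset.mem_Ico] at hz1
    have hs : slot n i < M := by
      by_contra hc
      have hle : NN M ≤ NN (slot n i) := by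
        rcases (not_lt.1 hc).eq_or_lt with he | hlt
        · rw [he]
        · have := hm _ _ hlt
          omega
      have : (NN M : ℤ) ≤ NN (slot n i) := by exact_mod_cast hle
      linarith [hz1.2]
    have hni := lg_pow_le n i hv
    have h0 := hv.1
    have his : i ≤ slot n i := by
      unfold slot
      nlinarith
    refine ⟨(n, i), ?_, ?_⟩
    · unfold stn
      rw [Finset.mem_filter, Finset.mem_product, Finset.mem_range, Finset.mem_range]
      exact ⟨⟨by omega, by omega⟩, hn, hv, hs⟩
    · unfold RS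
      rw [Finset.mem_filter, Finset.mem_Ico]
      exact ⟨⟨hl, hu⟩, hreg⟩

end Pool.Agent.H19.SC
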